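import Pool.Agent.MT100B.Stmts

/-! # MT100B: the exterior square (module EXM) -/

set_option autoImplicit false

namespace Pool.Agent.MT100B.H15

open Matrix

lemma sum_pairs {r : ℕ} {R : Type} [CommRing R] (T : Fin r → Fin r → R) (hT : ∀ k, T k k = 0) :
    ∑ k, ∑ l, T k l = ∑ γ : AI r, (T γ.1.1 γ.1.2 + T γ.1.2 γ.1.1) := by
  have h0 : ∑ k, ∑ l, T k l = ∑ p : Fin r × Fin r, T p.1 p.2 := by
    rw [Fintype.sum_prod_type]
  have h1 : ∀ p : Fin r × Fin r, T p.1 p.2 =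
      (if p.1 < p.2 then T p.1 p.2 else 0) + (if p.2 < p.1 then T p.1 p.2 else 0) := by
    intro p
    rcases lt_trichotomy p.1 p.2 with h | h | h
    · rw [if_pos h, if_neg (not_lt.mpr h.le), add_zero]
    · rw [h, if_neg (lt_irrefl _), add_zero, hT]
    · rw [if_neg (not_lt.mpr h.le), if_pos h, zero_add]
  have h2 : ∑ p : Fin r × Fin r, (if p.2 < p.1 then T p.1 p.2 else 0) =
      ∑ p : Fin r × Fin r, (if p.1 < p.2 then T p.2 p.1 else 0) :=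
    ((Equiv.prodComm (Fin r) (Fin r)).sum_comp
      (fun p : Fin r × Fin r => if p.2 < p.1 then T p.1 p.2 else 0)).symm
  have h3 : ∑ p : Fin r × Fin r, (if p.1 < p.2 then T p.1 p.2 + T p.2 p.1 else 0) =
      ∑ γ : AI r, (T γ.1.1 γ.1.2 + T γ.1.2 γ.1.1) := by
    rw [← Finset.sum_filter]
    exact Finset.sum_subtype (Finset.univ.filter fun p : Fin r × Fin r => p.1 < p.2)
      (fun p => by simp) (fun p => T p.1 p.2 + T p.2 p.1)
  rw [h0, ← h3, Finset.sum_congr rfl fun p _ => h1 p, Finset.sum_add_distrib, h2,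
    ← Finset.sum_add_distrib]
  refine Finset.sum_congr rfl fun p _ => ?_
  split_ifs <;> simp

lemma ex_mul (r : ℕ) (R : Type) [CommRing R] (M M' : Matrix (Fin r) (Fin r) R) :
    ex (M * M') = ex M * ex M' := by
  funext β α
  have h1 : ex (M * M') β α = ∑ k, ∑ l, (M β.1.1 k * M β.1.2 l *
      (M' k α.1.1 * M' l α.1.2 - M' k α.1.2 * M' l α.1.1)) := by
    show (M * M') β.1.1 α.1.1 * (M * M') β.1.2 α.1.2 -
      (M * M') β.1.1 α.1.2 * (M * M') β.1.2 α.1.1 = _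
    simp only [Matrix.mul_apply, Finset.sum_mul_sum, ← Finset.sum_sub_distrib]
    refine Finset.sum_congr rfl fun k _ => Finset.sum_congr rfl fun l _ => ?_
    ring
  rw [h1, sum_pairs _ (fun k => by ring), Matrix.mul_apply]
  refine Finset.sum_congr rfl fun γ _ => ?_
  show _ = (M β.1.1 γ.1.1 * M β.1.2 γ.1.2 - M β.1.1 γ.1.2 * M β.1.2 γ.1.1) *
    (M' γ.1.1 α.1.1 * M' γ.1.2 α.1.2 - M' γ.1.1 α.1.2 * M' γ.1.2 α.1.1)
  ring

lemma ex_one (r : ℕ) (R : Type) [CommRing R] : ex (1 : Matrix (Fin r) (Fin r) R) = 1 := by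
  funext β α
  obtain ⟨⟨b1, b2⟩, hb⟩ := β
  obtain ⟨⟨a1, a2⟩, ha⟩ := α
  show (1 : Matrix (Fin r) (Fin r) R) b1 a1 * (1 : Matrix (Fin r) (Fin r) R) b2 a2 -
    (1 : Matrix (Fin r) (Fin r) R) b1 a2 * (1 : Matrix (Fin r) (Fin r) R) b2 a1 =
      (1 : Matrix (AI r) (AI r) R) ⟨(b1, b2), hb⟩ ⟨(a1, a2), ha⟩
  have hb' : b1 < b2 := hb
  have ha' : a1 < a2 := ha
  have h1 : (1 : Matrix (Fin r) (Fin r) R) b1 a2 * (1 : Matrix (Fin r) (Fin r) R) b2 a1 = 0 := by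
    by_cases h : b1 = a2
    · have h2 : b2 ≠ a1 := fun h3 => by
        rw [h, h3] at hb'
        exact lt_asymm hb' ha'
      rw [Matrix.one_apply_ne h2, mul_zero]
    · rw [Matrix.one_apply_ne h, zero_mul]
  rw [h1, sub_zero]
  by_cases h : (⟨(b1, b2), hb⟩ : AI r) = ⟨(a1, a2), ha⟩
  · obtain ⟨rfl, rfl⟩ := Prod.mk.inj (Subtype.mk.inj h)
    rw [Matrix.one_apply_eq, Matrix.one_apply_eq, Matrix.one_apply_eq, mul_one]
  · rw [Matrix.one_apply_ne h]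
    by_cases h1 : b1 = a1
    · have h2 : b2 ≠ a2 := fun h3 => h (by subst h1; subst h3; rfl)
      rw [Matrix.one_apply_ne h2, mul_zero]
    · rw [Matrix.one_apply_ne h1, zero_mul]

lemma ex_map (r : ℕ) (R R' : Type) [CommRing R] [CommRing R'] (f : R →+* R')
    (M : Matrix (Fin r) (Fin r) R) : ex (M.map f) = (ex M).map f := by
  funext β α
  show f _ * f _ - f _ * f _ = f (_ * _ - _ * _)
  rw [map_sub, map_mul, map_mul]

lemma ex_mulVec (r : ℕ) (R : Type) [CommRing R] (M : Matrix (Fin r) (Fin r) R) (F G : Fin r → R)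
    (β : AI r) : (M *ᵥ F) β.1.1 * (M *ᵥ G) β.1.2 - (M *ᵥ F) β.1.2 * (M *ᵥ G) β.1.1 =
      ∑ α : AI r, ex M β α * (F α.1.1 * G α.1.2 - F α.1.2 * G α.1.1) := by
  have h1 : (M *ᵥ F) β.1.1 * (M *ᵥ G) β.1.2 - (M *ᵥ F) β.1.2 * (M *ᵥ G) β.1.1 =
      ∑ k, ∑ l, ((M β.1.1 k * M β.1.2 l - M β.1.2 k * M β.1.1 l) * (F k * G l)) := by
    simp only [Matrix.mulVec, dotProduct, Finset.sum_mul_sum, ← Finset.sum_sub_distrib]
    refine Finset.sum_congr rfl fun k _ => Finset.sum_congr rfl fun l _ => ?_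
    ring
  rw [h1, sum_pairs _ (fun k => by ring)]
  refine Finset.sum_congr rfl fun γ _ => ?_
  show _ = (M β.1.1 γ.1.1 * M β.1.2 γ.1.2 - M β.1.1 γ.1.2 * M β.1.2 γ.1.1) *
    (F γ.1.1 * G γ.1.2 - F γ.1.2 * G γ.1.1)
  ring

theorem exm : ExmStmt := ⟨ex_mul, ex_one, ex_map, ex_mulVec⟩

end Pool.Agent.MT100B.H15
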